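import Pool.Agent.Q211.TP.Bai

/-!
# A Baire set of a realcompact space that is not realcompact

The model is a symmetric extension of permutation type. The atoms are the pairs in `ℕ × ℤ`, the
group consists of the sequences of translations of the blocks `{n} × ℤ`, and the supports are the
finite unions of blocks. Countable multiple choice fails for the sequence of the blocks. The space
`X` is a linearly ordered space: the nodes `0, 1, 2, …`, between the nodes `n` and `n + 1` the
block `n` in its natural order, and a last point `∞`. It is realcompact: it is generated by the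
clopen sets `{x | a ≤ x}` for the atoms `a`, and every trace of this family that is realized on all
countable families of atoms is realized by a point. The set `B` of all points except `∞` is the
union of the sequence of the initial segments below the nodes, each of which is a countable
intersection of clopen sets, so `B` is a Baire set. Every continuous real-valued function on `B` is
eventually constant, so the coordinates of an embedding of `B` into a power of the real line
converge along the nodes, and the image is not closed.
-/

set_option autoImplicit false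

namespace Pool.Agent.Results.MP_f2f7cf_lc.BaireNotRealcompact

open Pool.Agent.W868 Pool.Agent.W868.PName Pool.Agent.Q211.SY Pool.Agent.Q211.FS
open Pool.Agent.Q211.TP

/-- There is a countable transitive model of ZF in which countable multiple choice fails, with a
realcompact space `X` and a Baire set `B` of `X` such that the subspace `B` is not realcompact. -/
theorem result : ∃ M : Set ZFSet.{0}, M.Countable ∧ IsZF M ∧ ¬ CMC M ∧
    ∃ R ∈ M, ∃ σ ∈ M, IsReals M R σ ∧
    ∃ X ∈ M, ∃ τ ∈ M, IsTopIn M X τ ∧ ECompactIn M R σ X τ ∧
      ∃ B, B ⊆ X ∧ IsBaire M R σ X τ B ∧ ¬ ECompactIn M R σ B (subTop τ B) := by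
  obtain ⟨M, pt, c, X, K, R, BL, h⟩ := exists_chn ℤ int_homog ∅ Set.countable_empty
    (fun z hz => absurd hz (Set.notMem_empty z))
  obtain ⟨RR, hRR, σ, hσ, hRσ⟩ := exists_line h.zf h.qc h.lq
  obtain ⟨i, hi⟩ := goodE_real h.zf h.qc h.lq hRR hσ hRσ
  obtain ⟨τ, hτM, hτ⟩ := exists_gen h.zf h.XM h.KM h.RM
  have hsub : ZFSet.sep (fun z => z ≠ ZFSet.omega) X ⊆ X := fun z hz => (ZFSet.mem_sep.1 hz).1
  exact ⟨M, h.cnt, h.zf, h.not_CMC, RR, hRR, σ, hσ, hRσ, X, h.XM, τ, hτM, hτ.top h.zf h.XM,
    h.ecompact h.subX (Or.inl trivial) hτM hτ hi, _, hsub,
    h.baire_B h.exists_B hτM hτ hRR hRσ,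
    h.not_ecompact h.exists_B (subTop_mem h.zf hτM h.exists_B.1)
      (hτ.sub h.zf h.XM h.KM h.RM h.exists_B.1 hsub) (flat_real hRσ) hi⟩

end Pool.Agent.Results.MP_f2f7cf_lc.BaireNotRealcompact
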